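import Pool.Agent.H24.RD.Targets

set_option autoImplicit false

namespace Pool.Agent.H77.RD

open NumberField Height Finset Polynomial Pool.Agent.H24.RD

/-- Over `ZMod ℓ`, a monic polynomial of degree at most `d` divides `(X ^ (ℓ ^ d!) - X) ^ d`. -/
theorem dvd_pow_aux (ℓ d : ℕ) [Fact ℓ.Prime] (f : (ZMod ℓ)[X]) (hf : f.Monic)
    (hd : f.natDegree ≤ d) :
    f ∣ (X ^ (ℓ ^ d.factorial) - X : (ZMod ℓ)[X]) ^ d := by
  classical
  let L := f.SplittingField
  have hspl : (f.map (algebraMap (ZMod ℓ) L)).Splits := SplittingField.splits f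
  rw [← Polynomial.map_dvd_map' (algebraMap (ZMod ℓ) L)]
  have hroot : ∀ α ∈ (f.map (algebraMap (ZMod ℓ) L)).roots, α ^ (ℓ ^ d.factorial) = α := by
    intro α hα
    have hα0 : aeval α f = 0 := by
      have := (mem_roots (hf.map _).ne_zero).1 hα
      rwa [IsRoot.def, eval_map_algebraMap] at this
    have hint : IsIntegral (ZMod ℓ) α := ⟨f, hf, by rwa [← aeval_def]⟩
    -- the field generated by `α`
    let E := IntermediateField.adjoin (ZMod ℓ) {α}
    have : FiniteDimensional (ZMod ℓ) E := IntermediateField.adjoin.finiteDimensional hint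
    have : Finite E := Module.finite_of_finite (ZMod ℓ)
    have : Fintype E := Fintype.ofFinite E
    have hdeg : Module.finrank (ZMod ℓ) E ≤ d := by
      rw [IntermediateField.adjoin.finrank hint]
      exact (natDegree_le_of_dvd (minpoly.dvd _ _ hα0) hf.ne_zero).trans hd
    have hpos : 0 < Module.finrank (ZMod ℓ) E := Module.finrank_pos
    have hdvd : Module.finrank (ZMod ℓ) E ∣ d.factorial := Nat.dvd_factorial hpos hdeg
    obtain ⟨k, hk⟩ := hdvd
    have hcard : Fintype.card E = ℓ ^ Module.finrank (ZMod ℓ) E := by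
      rw [Module.card_eq_pow_finrank (K := ZMod ℓ) (V := E), ZMod.card]
    have h1 : (⟨α, IntermediateField.mem_adjoin_simple_self _ α⟩ : E) ^ (ℓ ^ d.factorial) =
        ⟨α, IntermediateField.mem_adjoin_simple_self _ α⟩ := by
      rw [hk, pow_mul, ← hcard]
      exact FiniteField.pow_card_pow k _
    exact congrArg Subtype.val h1
  rw [hspl.eq_prod_roots_of_monic (hf.map _)]
  have hcard : Multiset.card (f.map (algebraMap (ZMod ℓ) L)).roots ≤ d := by
    refine (card_roots' _).trans ?_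
    rw [natDegree_map]
    exact hd
  have hmap : ((X ^ (ℓ ^ d.factorial) - X : (ZMod ℓ)[X]) ^ d).map (algebraMap (ZMod ℓ) L) =
      (X ^ (ℓ ^ d.factorial) - X : L[X]) ^ d := by
    simp
  rw [hmap]
  refine dvd_trans ?_ (pow_dvd_pow _ hcard)
  have key : ∀ s : Multiset L, (∀ α ∈ s, α ^ (ℓ ^ d.factorial) = α) →
      (s.map (fun a => X - C a)).prod ∣ (X ^ (ℓ ^ d.factorial) - X : L[X]) ^ Multiset.card s := by
    intro s
    induction s using Multiset.induction_on with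
    | empty => intro _; simp
    | cons a s ih =>
      intro h
      rw [Multiset.map_cons, Multiset.prod_cons, Multiset.card_cons, pow_succ, mul_comm]
      refine mul_dvd_mul (ih fun α hα => h α (Multiset.mem_cons_of_mem hα)) ?_
      rw [dvd_iff_isRoot]
      simp [h a (Multiset.mem_cons_self a s)]
  exact key _ hroot

/-- For an algebraic integer `a` of degree at most `d`, `(a ^ (ℓ ^ d!) - a) ^ d` is divisible by
`ℓ`. -/
theorem pow_sub_dvd {R : Type} [CommRing R] (ℓ d : ℕ) (hℓ : ℓ.Prime) (a : R) (f : ℤ[X])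
    (hf : f.Monic) (hd : f.natDegree ≤ d) (ha : aeval a f = 0) :
    ∃ r : R, (a ^ (ℓ ^ d.factorial) - a) ^ d = ℓ * r := by
  have : Fact ℓ.Prime := ⟨hℓ⟩
  have h1 := dvd_pow_aux ℓ d (f.map (Int.castRingHom (ZMod ℓ))) (hf.map _)
    ((natDegree_map_le).trans hd)
  obtain ⟨g, hg⟩ := h1
  obtain ⟨g', rfl⟩ := Polynomial.map_surjective (Int.castRingHom (ZMod ℓ))
    (ZMod.ringHom_surjective _) g
  have h2 : ((X ^ (ℓ ^ d.factorial) - X : ℤ[X]) ^ d - f * g').map (Int.castRingHom (ZMod ℓ)) = 0 := by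
    rw [Polynomial.map_sub, Polynomial.map_mul, ← hg]
    simp
  have h3 : (C (ℓ : ℤ)) ∣ ((X ^ (ℓ ^ d.factorial) - X : ℤ[X]) ^ d - f * g') := by
    rw [Polynomial.C_dvd_iff_dvd_coeff]
    intro i
    have := congrArg (fun q => Polynomial.coeff q i) h2
    simp only [coeff_map, coeff_zero, eq_intCast] at this
    exact (ZMod.intCast_zmod_eq_zero_iff_dvd _ _).1 this
  obtain ⟨h, hh⟩ := h3
  refine ⟨aeval a h, ?_⟩
  have h4 := congrArg (aeval a) hh
  simp only [map_sub, map_mul, map_pow, aeval_X, ha, zero_mul, sub_zero, aeval_C] at h4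
  rw [h4]
  simp


/-- The absolute values which are used below. -/
structure Good (M : Type) [Field M] (w : AbsoluteValue M ℝ) (ℓ : ℕ) : Prop where
  na : ∀ x y : M, w (x + y) ≤ max (w x) (w y)
  int : ∀ x : M, IsIntegral ℤ x → w x ≤ 1
  lt : w (ℓ : M) < 1

namespace Good

variable {M : Type} [Field M] {w : AbsoluteValue M ℝ} {ℓ : ℕ}

theorem natCast_le (h : Good M w ℓ) (n : ℕ) : w (n : M) ≤ 1 :=
  h.int _ (by simpa using (isIntegral_algebraMap (R := ℤ) (A := M) (x := (n : ℤ))))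

theorem sub_le (h : Good M w ℓ) (x y : M) : w (x - y) ≤ max (w x) (w y) := by
  have := h.na x (-y)
  rwa [← sub_eq_add_neg, w.map_neg] at this

theorem eq_one_of_sub_lt (h : Good M w ℓ) {x y : M} (hx : w x = 1) (hxy : w (y - x) < 1) :
    w y = 1 := by
  apply le_antisymm
  · have h1 := h.na (y - x) x
    rw [sub_add_cancel, hx] at h1
    exact h1.trans (max_le hxy.le le_rfl)
  · by_contra hlt
    push Not at hlt
    have h1 := h.sub_le y (y - x)
    rw [sub_sub_cancel, hx] at h1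
    exact absurd h1 (not_le.2 (max_lt hlt hxy))

theorem natCast_eq_one (h : Good M w ℓ) (hℓ : ℓ.Prime) {m : ℕ} (hm : ¬ ℓ ∣ m) :
    w (m : M) = 1 := by
  apply le_antisymm (h.natCast_le m)
  by_contra hlt
  push Not at hlt
  have hc : IsCoprime (ℓ : ℤ) (m : ℤ) := Nat.isCoprime_iff_coprime.2 ((hℓ.coprime_iff_not_dvd).2 hm)
  obtain ⟨a, b, hab⟩ := hc
  have h1 : (a : M) * (ℓ : M) + (b : M) * (m : M) = 1 := by exact_mod_cast congrArg (Int.cast : ℤ → M) hab
  have ha : w (a : M) ≤ 1 := h.int _ (by simpa using (isIntegral_algebraMap (R := ℤ) (A := M) (x := a)))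
  have hb : w (b : M) ≤ 1 := h.int _ (by simpa using (isIntegral_algebraMap (R := ℤ) (A := M) (x := b)))
  have h2 := h.na ((a : M) * (ℓ : M)) ((b : M) * (m : M))
  rw [h1, map_one, map_mul, map_mul] at h2
  have h3 : w (a : M) * w (ℓ : M) < 1 :=
    lt_of_le_of_lt (mul_le_of_le_one_left (apply_nonneg _ _) ha) h.lt
  have h4 : w (b : M) * w (m : M) < 1 :=
    lt_of_le_of_lt (mul_le_of_le_one_left (apply_nonneg _ _) hb) hlt
  exact absurd h2 (not_le.2 (max_lt h3 h4))

/-- Roots of unity of order prime to `ℓ` which are congruent are equal. -/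
theorem root_eq (h : Good M w ℓ) (hℓ : ℓ.Prime) {a : ℕ} (ha : ¬ ℓ ∣ a) {x y : M}
    (hx : x ^ a = 1) (hy : y ^ a = 1) (hxy : w (x - y) < 1) : x = y := by
  have ha0 : a ≠ 0 := fun h0 => ha (h0 ▸ dvd_zero ℓ)
  have hy0 : y ≠ 0 := by
    rintro rfl
    rw [zero_pow ha0] at hy
    exact zero_ne_one hy
  have hwy : w y = 1 := by
    have h1 : w y ^ a = 1 := by rw [← map_pow, hy, map_one]
    exact (pow_eq_one_iff_of_nonneg (apply_nonneg _ _) ha0).1 h1
  set ρ : M := x / y with hρ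
  have hρa : ρ ^ a = 1 := by rw [hρ, div_pow, hx, hy, div_one]
  have hρ1 : w (ρ - 1) < 1 := by
    have h2 : ρ - 1 = (x - y) / y := by rw [hρ]; field_simp
    rw [h2, map_div₀, hwy, div_one]
    exact hxy
  have hρint : IsIntegral ℤ ρ := by
    refine ⟨X ^ a - 1, monic_X_pow_sub_C 1 ha0, ?_⟩
    simp [hρa]
  have hpow : ∀ i : ℕ, w (ρ ^ i - 1) < 1 := by
    intro i
    obtain ⟨c, hc⟩ : ∃ c : M, IsIntegral ℤ c ∧ ρ ^ i - 1 = (ρ - 1) * c := by
      refine ⟨∑ j ∈ range i, ρ ^ j, IsIntegral.sum _ fun j _ => hρint.pow j, ?_⟩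
      rw [mul_geom_sum]
    rw [hc.2, map_mul]
    exact lt_of_le_of_lt (mul_le_of_le_one_right (apply_nonneg _ _) (h.int _ hc.1)) hρ1
  by_contra hne
  have hρne : ρ ≠ 1 := by
    intro h1
    rw [hρ, div_eq_one_iff_eq hy0] at h1
    exact hne h1
  have hsum : ∑ i ∈ range a, ρ ^ i = 0 := by
    have h1 := mul_geom_sum ρ a
    rw [hρa, sub_self, mul_eq_zero] at h1
    exact h1.resolve_left (sub_ne_zero.2 hρne)
  have hlt : ∀ s : Finset ℕ, w (∑ i ∈ s, (ρ ^ i - 1)) < 1 := by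
    intro s
    induction s using Finset.induction_on with
    | empty => simp
    | insert i s hi ih =>
      rw [sum_insert hi]
      exact lt_of_le_of_lt (h.na _ _) (max_lt (hpow i) ih)
  have h3 := hlt (range a)
  rw [sum_sub_distrib, hsum, sum_const, card_range, nsmul_eq_mul, mul_one, zero_sub,
    w.map_neg, h.natCast_eq_one hℓ ha] at h3
  exact absurd h3 (lt_irrefl 1)

end Good

theorem good_of_finitePlace {M : Type} [Field M] [NumberField M] (v : FinitePlace M) {ℓ : ℕ}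
    (h : v.1 (ℓ : M) < 1) : Good M v.1 ℓ where
  na := v.add_le
  int := by
    intro x hx
    obtain ⟨y, rfl⟩ : ∃ y : 𝓞 M, (y : M) = x := ⟨⟨x, hx⟩, rfl⟩
    have h1 := FinitePlace.norm_le_one (K := M) v.maximalIdeal y
    rw [FinitePlace.norm_embedding_eq] at h1
    exact h1
  lt := h


section Step

variable {K M : Type} [Field K] [NumberField K] [Field M] [NumberField M] [Algebra K M]
  {w : AbsoluteValue M ℝ} {ℓ : ℕ}

/-- Step 2: the elements of `𝓞 K`. -/
theorem step2 (h : Good M w ℓ) (hℓ : ℓ.Prime) (a : 𝓞 K) :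
    w (algebraMap K M ((a : K) ^ (ℓ ^ (Module.finrank ℚ K).factorial) - (a : K))) ≤
      w (ℓ : M) ^ (1 / (Module.finrank ℚ K : ℝ)) := by
  set d := Module.finrank ℚ K with hd
  have hd0 : d ≠ 0 := Module.finrank_pos.ne'
  have hint : IsIntegral ℤ (a : K) := a.2
  have hmin : minpoly ℚ (a : K) = (minpoly ℤ (a : K)).map (algebraMap ℤ ℚ) :=
    minpoly.isIntegrallyClosed_eq_field_fractions' ℚ hint
  have hdeg : (minpoly ℤ (a : K)).natDegree ≤ d := by
    have h1 : (minpoly ℚ (a : K)).natDegree = (minpoly ℤ (a : K)).natDegree := by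
      rw [hmin, (minpoly.monic hint).natDegree_map]
    rw [← h1]
    exact minpoly.natDegree_le _
  obtain ⟨r, hr⟩ := pow_sub_dvd (R := 𝓞 K) ℓ d hℓ a (minpoly ℤ (a : K)) (minpoly.monic hint) hdeg (by
    apply FaithfulSMul.algebraMap_injective (𝓞 K) K
    rw [← aeval_algebraMap_apply, map_zero]
    exact minpoly.aeval ℤ (a : K))
  have h1 : (algebraMap K M ((a : K) ^ (ℓ ^ d.factorial) - (a : K))) ^ d =
      (ℓ : M) * algebraMap K M (r : K) := by
    have h2 := congrArg (fun z : 𝓞 K => algebraMap K M (z : K)) hr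
    simp only [map_pow, map_sub, map_mul, map_natCast] at h2 ⊢
    exact h2
  have h2 : w (algebraMap K M ((a : K) ^ (ℓ ^ d.factorial) - (a : K))) ^ d ≤ w (ℓ : M) := by
    rw [← map_pow, h1, map_mul]
    refine mul_le_of_le_one_right (apply_nonneg _ _) (h.int _ ?_)
    exact (r.2 : IsIntegral ℤ (r : K)).algebraMap
  have h3 := Real.rpow_le_rpow (pow_nonneg (apply_nonneg w _) d) h2
    (by positivity : (0 : ℝ) ≤ 1 / (d : ℝ))
  rwa [one_div, Real.pow_rpow_inv_natCast (apply_nonneg w _) hd0, ← one_div] at h3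

omit [NumberField M] [Algebra K M] in
theorem c_lt (h : Good M w ℓ) : w (ℓ : M) ^ (1 / (Module.finrank ℚ K : ℝ)) < 1 :=
  Real.rpow_lt_one (apply_nonneg _ _) h.lt (by
    have : 0 < Module.finrank ℚ K := Module.finrank_pos
    positivity)

omit [NumberField M] [Algebra K M] in
theorem c_ge (h : Good M w ℓ) : w (ℓ : M) ≤ w (ℓ : M) ^ (1 / (Module.finrank ℚ K : ℝ)) := by
  have h0 : 0 < Module.finrank ℚ K := Module.finrank_pos
  have h1 : (1 : ℝ) ≤ (Module.finrank ℚ K : ℝ) := by exact_mod_cast h0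
  conv_lhs => rw [← Real.rpow_one (w (ℓ : M))]
  by_cases hz : w (ℓ : M) = 0
  · rw [hz, Real.rpow_one]
    exact Real.rpow_nonneg le_rfl _
  · refine Real.rpow_le_rpow_of_exponent_ge (lt_of_le_of_ne (apply_nonneg _ _) (Ne.symm hz)) h.lt.le ?_
    rw [div_le_one (by positivity)]
    exact h1

omit [NumberField M] [Algebra K M] in
theorem c_nonneg : 0 ≤ w (ℓ : M) ^ (1 / (Module.finrank ℚ K : ℝ)) :=
  Real.rpow_nonneg (apply_nonneg _ _) _

/-- Step 3: `f (z ^ q)` is close to `f (z) ^ q`. -/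
theorem step3 (h : Good M w ℓ) (hℓ : ℓ.Prime) (z : 𝓞 M) (f : (𝓞 K)[X]) :
    IsIntegral ℤ (aeval (z : M) f) ∧
    w (aeval ((z : M) ^ (ℓ ^ (Module.finrank ℚ K).factorial)) f -
      (aeval (z : M) f) ^ (ℓ ^ (Module.finrank ℚ K).factorial)) ≤
      w (ℓ : M) ^ (1 / (Module.finrank ℚ K : ℝ)) := by
  induction f using Polynomial.induction_on' with
  | add f g hf hg =>
    refine ⟨?_, ?_⟩
    · rw [map_add]; exact hf.1.add hg.1
    · obtain ⟨F, hF⟩ : ∃ F : 𝓞 M, (F : M) = aeval (z : M) f := ⟨⟨_, hf.1⟩, rfl⟩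
      obtain ⟨G, hG⟩ : ∃ G : 𝓞 M, (G : M) = aeval (z : M) g := ⟨⟨_, hg.1⟩, rfl⟩
      obtain ⟨r, hr⟩ := exists_add_pow_prime_pow_eq hℓ F G (Module.finrank ℚ K).factorial
      have h1 := congrArg (fun x : 𝓞 M => (x : M)) hr
      simp only [map_add, map_mul, map_pow, map_natCast] at h1
      rw [map_add, map_add, ← hF, ← hG, h1]
      rw [← hF] at hf
      rw [← hG] at hg
      have e : ∀ A B C D E : M, A + B - (C + D + E) = (A - C) + (B - D) - E := by
        intro A B C D E; ring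
      rw [e]
      refine (h.sub_le _ _).trans (max_le ((h.na _ _).trans (max_le hf.2 hg.2)) ?_)
      refine le_trans ?_ (c_ge (K := K) h)
      have hint : IsIntegral ℤ ((F : M) * (G : M) * (r : M)) := (F.2.mul G.2).mul r.2
      have e2 : (ℓ : M) * (F : M) * (G : M) * (r : M) = (ℓ : M) * ((F : M) * (G : M) * (r : M)) := by
        ring
      rw [e2, map_mul]
      exact mul_le_of_le_one_right (apply_nonneg _ _) (h.int _ hint)
  | monomial n a =>
    refine ⟨?_, ?_⟩
    · rw [aeval_monomial]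
      exact (a.2.algebraMap (A := K) (B := M)).mul ((z.2).pow n)
    · set q := ℓ ^ (Module.finrank ℚ K).factorial with hq
      rw [aeval_monomial, aeval_monomial, mul_pow]
      have e : algebraMap (𝓞 K) M a * ((z : M) ^ q) ^ n - (algebraMap (𝓞 K) M a) ^ q * ((z : M) ^ n) ^ q =
          -(algebraMap K M ((a : K) ^ q - (a : K)) * ((z : M) ^ n) ^ q) := by
        have e1 : algebraMap (𝓞 K) M a = algebraMap K M (a : K) := rfl
        rw [e1, map_sub, map_pow, ← pow_mul, ← pow_mul, mul_comm n q]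
        ring
      rw [e, w.map_neg, map_mul]
      refine le_trans (mul_le_of_le_one_right (apply_nonneg _ _) (h.int _ ((z.2.pow n).pow q))) ?_
      exact step2 h hℓ a


/-- Step 1: the Frobenius substitution on `ζ`. -/
theorem step1 (h : Good M w ℓ) (hℓ : ℓ.Prime) {N' : ℕ} (hN : ¬ ℓ ∣ N') {ζ : M}
    (hζ : IsPrimitiveRoot ζ N') [Normal K M] :
    ∃ σ : M ≃ₐ[K] M, σ ζ = ζ ^ (ℓ ^ (Module.finrank ℚ K).factorial) := by
  set q := ℓ ^ (Module.finrank ℚ K).factorial with hq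
  have hN0 : N' ≠ 0 := fun h0 => hN (h0 ▸ dvd_zero ℓ)
  have hint : IsIntegral ℤ ζ := hζ.isIntegral (Nat.pos_of_ne_zero hN0)
  have hintO : IsIntegral (𝓞 K) ζ := hint.tower_top
  have hintK : IsIntegral K ζ := hint.tower_top
  have hmin : minpoly K ζ = (minpoly (𝓞 K) ζ).map (algebraMap (𝓞 K) K) :=
    minpoly.isIntegrallyClosed_eq_field_fractions' K hintO
  obtain ⟨z, hz⟩ : ∃ z : 𝓞 M, (z : M) = ζ := ⟨⟨ζ, hint⟩, rfl⟩
  have h3 := (step3 h hℓ z (minpoly (𝓞 K) ζ)).2
  have hq0 : q ≠ 0 := pow_ne_zero _ hℓ.ne_zero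
  rw [hz, minpoly.aeval, zero_pow hq0, sub_zero] at h3
  have h4 : aeval (ζ ^ q) (minpoly (𝓞 K) ζ) = aeval (ζ ^ q) (minpoly K ζ) := by
    rw [hmin, aeval_map_algebraMap]
  have hspl : ((minpoly K ζ).map (algebraMap K M)).Splits := Normal.splits inferInstance ζ
  have hmon : ((minpoly K ζ).map (algebraMap K M)).Monic := (minpoly.monic hintK).map _
  have h5 : aeval (ζ ^ q) (minpoly K ζ) =
      (((minpoly K ζ).map (algebraMap K M)).roots.map (fun a => ζ ^ q - a)).prod := by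
    rw [← eval_map_algebraMap]
    conv_lhs => rw [hspl.eq_prod_roots_of_monic hmon]
    rw [eval_multiset_prod, Multiset.map_map]
    simp
  rw [h4, h5] at h3
  have h6 : ∃ ρ ∈ ((minpoly K ζ).map (algebraMap K M)).roots, w (ζ ^ q - ρ) < 1 := by
    by_contra hcon
    push Not at hcon
    have h7 : ∀ s : Multiset M, (∀ ρ ∈ s, 1 ≤ w (ζ ^ q - ρ)) →
        1 ≤ w ((s.map (fun a => ζ ^ q - a)).prod) := by
      intro s
      induction s using Multiset.induction_on with
      | empty => intro _; simp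
      | cons a s ih =>
        intro hs
        rw [Multiset.map_cons, Multiset.prod_cons, map_mul]
        exact one_le_mul_of_one_le_of_one_le (hs a (Multiset.mem_cons_self a s))
          (ih fun ρ hρ => hs ρ (Multiset.mem_cons_of_mem hρ))
    exact absurd (h7 _ hcon) (not_le.2 (lt_of_le_of_lt h3 (c_lt h)))
  obtain ⟨ρ, hρ, hρ1⟩ := h6
  have hρ0 : aeval ρ (minpoly K ζ) = 0 := by
    have := (mem_roots hmon.ne_zero).1 hρ
    rwa [IsRoot.def, eval_map_algebraMap] at this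
  have hρN : ρ ^ N' = 1 := by
    have hd : minpoly K ζ ∣ X ^ N' - 1 := minpoly.dvd _ _ (by simp [hζ.pow_eq_one])
    obtain ⟨g, hg⟩ := hd
    have := congrArg (aeval ρ) hg
    rw [map_mul, hρ0, zero_mul] at this
    simpa [sub_eq_zero] using this
  have heq : ζ ^ q = ρ := h.root_eq hℓ hN (by rw [← pow_mul, mul_comm, pow_mul, hζ.pow_eq_one, one_pow])
    hρN hρ1
  have hmin2 : minpoly K (ζ ^ q) = minpoly K ζ := by
    rw [heq]
    exact (minpoly.eq_of_irreducible_of_monic (minpoly.irreducible hintK) hρ0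
      (minpoly.monic hintK)).symm
  rw [Normal.minpoly_eq_iff_mem_orbit] at hmin2
  obtain ⟨σ, hσ⟩ := hmin2
  exact ⟨σ, hσ⟩

/-- Step 4: the trace formula. -/
theorem step4 {N' : ℕ} (hN0 : N' ≠ 0) {ζ : M} (hζ : IsPrimitiveRoot ζ N')
    [IsGalois K M] (htop : IntermediateField.adjoin K {ζ} = ⊤) (x : M) (hx : IsIntegral ℤ x) :
    ∃ f : (𝓞 K)[X], aeval ζ f = (N' : M) * x := by
  classical
  have hζ0 : ζ ≠ 0 := hζ.ne_zero hN0
  have hint : IsIntegral ℤ ζ := hζ.isIntegral (Nat.pos_of_ne_zero hN0)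
  -- the traces
  have htr : ∀ j : ℕ, ∃ a : 𝓞 K, algebraMap K M (a : K) =
      ∑ τ : M ≃ₐ[K] M, τ (x * (ζ ^ j)⁻¹) := by
    intro j
    have hi : IsIntegral ℤ (x * (ζ ^ j)⁻¹) := by
      have e : (ζ ^ j)⁻¹ = (ζ ^ (N' - 1)) ^ j := by
        rw [← inv_pow]
        congr 1
        apply inv_eq_of_mul_eq_one_right
        rw [← pow_succ', Nat.sub_add_cancel (Nat.one_le_iff_ne_zero.2 hN0), hζ.pow_eq_one]
      rw [e]
      exact hx.mul ((hint.pow _).pow _)
    refine ⟨⟨Algebra.trace K M (x * (ζ ^ j)⁻¹), Algebra.isIntegral_trace hi⟩, ?_⟩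
    exact trace_eq_sum_automorphisms _
  choose a ha using htr
  refine ⟨∑ j ∈ range N', monomial j (a j), ?_⟩
  rw [map_sum]
  have h1 : ∀ j ∈ range N', aeval ζ (monomial j (a j)) =
      ∑ τ : M ≃ₐ[K] M, τ x * (ζ / τ ζ) ^ j := by
    intro j _
    have e : algebraMap (𝓞 K) M (a j) = algebraMap K M (a j : K) := rfl
    rw [aeval_monomial, e, ha, sum_mul]
    refine sum_congr rfl fun τ _ => ?_
    rw [map_mul, map_inv₀, map_pow, div_pow]
    ring
  rw [sum_congr rfl h1, sum_comm]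
  have h2 : ∀ τ : M ≃ₐ[K] M, ∑ j ∈ range N', τ x * (ζ / τ ζ) ^ j =
      if τ = 1 then (N' : M) * x else 0 := by
    intro τ
    rw [← mul_sum]
    split_ifs with hτ
    · subst hτ
      simp only [AlgEquiv.one_apply]
      rw [div_self hζ0]
      simp [mul_comm]
    · have hne : ζ / τ ζ ≠ 1 := by
        intro h1
        have h2 : ζ = τ ζ := by
          rwa [div_eq_one_iff_eq] at h1
          exact (map_ne_zero τ).2 hζ0
        apply hτ
        have h4 : IntermediateField.adjoin K {ζ} ≤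
            IntermediateField.fixedField (Subgroup.zpowers τ) := by
          rw [IntermediateField.adjoin_simple_le_iff, IntermediateField.mem_fixedField_iff]
          intro f hf
          obtain ⟨k, rfl⟩ := Subgroup.mem_zpowers_iff.1 hf
          exact MulAction.mem_stabilizer_iff.1
            ((MulAction.stabilizer (M ≃ₐ[K] M) ζ).zpow_mem
              (MulAction.mem_stabilizer_iff.2 (h2.symm : τ • ζ = ζ)) k)
        rw [htop] at h4
        ext y
        have h5 := h4 (IntermediateField.mem_top (x := y))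
        rw [IntermediateField.mem_fixedField_iff] at h5
        exact h5 τ (Subgroup.mem_zpowers τ)
      have hpow : (ζ / τ ζ) ^ N' = 1 := by
        rw [div_pow, ← map_pow, hζ.pow_eq_one, map_one, div_one]
      have h3 := mul_geom_sum (ζ / τ ζ) N'
      rw [hpow, sub_self, mul_eq_zero] at h3
      rw [h3.resolve_left (sub_ne_zero.2 hne), mul_zero]
  rw [sum_congr rfl fun τ _ => h2 τ]
  simp

/-- Step 5: integral elements. -/
theorem step5 (h : Good M w ℓ) (hℓ : ℓ.Prime) {N' : ℕ} (hN : ¬ ℓ ∣ N') {ζ : M}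
    (hζ : IsPrimitiveRoot ζ N') [IsGalois K M] (htop : IntermediateField.adjoin K {ζ} = ⊤)
    (σ : M ≃ₐ[K] M) (hσ : σ ζ = ζ ^ (ℓ ^ (Module.finrank ℚ K).factorial))
    (x : M) (hx : IsIntegral ℤ x) :
    w (σ x - x ^ (ℓ ^ (Module.finrank ℚ K).factorial)) ≤
      w (ℓ : M) ^ (1 / (Module.finrank ℚ K : ℝ)) := by
  set q := ℓ ^ (Module.finrank ℚ K).factorial with hq
  have hN0 : N' ≠ 0 := fun h0 => hN (h0 ▸ dvd_zero ℓ)
  have hint : IsIntegral ℤ ζ := hζ.isIntegral (Nat.pos_of_ne_zero hN0)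
  obtain ⟨z, hz⟩ : ∃ z : 𝓞 M, (z : M) = ζ := ⟨⟨ζ, hint⟩, rfl⟩
  obtain ⟨f, hf⟩ := step4 (K := K) hN0 hζ htop x hx
  have h3 := (step3 h hℓ z f).2
  rw [hz, hf, ← hq] at h3
  have h4 : aeval (ζ ^ q) f = (N' : M) * σ x := by
    have e1 : σ (aeval ζ f) = aeval (σ ζ) f := by
      have := aeval_algHom_apply ((σ : M →ₐ[K] M).restrictScalars (𝓞 K)) ζ f
      exact this.symm
    rw [← hσ, ← e1, hf, map_mul, map_natCast]
  rw [h4] at h3
  have hN1 : w (N' : M) = 1 := h.natCast_eq_one hℓ hN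
  -- Fermat
  have hfer : w ((N' : M) - (N' : M) ^ q) ≤ w (ℓ : M) := by
    have : Fact ℓ.Prime := ⟨hℓ⟩
    have h5 : (ℓ : ℤ) ∣ (N' : ℤ) - (N' : ℤ) ^ q := by
      rw [← ZMod.intCast_zmod_eq_zero_iff_dvd]
      push_cast
      rw [hq, ZMod.pow_card_pow, sub_self]
    obtain ⟨c, hc⟩ := h5
    have h6 : (N' : M) - (N' : M) ^ q = (ℓ : M) * (c : M) := by
      exact_mod_cast congrArg (Int.cast : ℤ → M) hc
    rw [h6, map_mul]
    refine mul_le_of_le_one_right (apply_nonneg _ _) (h.int _ ?_)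
    simpa using (isIntegral_algebraMap (R := ℤ) (A := M) (x := c))
  have e : (N' : M) * (σ x - x ^ q) =
      ((N' : M) * σ x - ((N' : M) * x) ^ q) - ((N' : M) - (N' : M) ^ q) * x ^ q := by
    rw [mul_pow]; ring
  have h7 : w (σ x - x ^ q) = w ((N' : M) * (σ x - x ^ q)) := by rw [map_mul, hN1, one_mul]
  rw [h7, e]
  refine (h.sub_le _ _).trans (max_le h3 ?_)
  rw [map_mul]
  refine le_trans (mul_le_of_le_one_right (apply_nonneg _ _) (h.int _ (hx.pow q))) ?_
  exact hfer.trans (c_ge (K := K) h)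

/-- Step 6: quotients with a denominator which is a unit. -/
theorem step6 (h : Good M w ℓ) (hℓ : ℓ.Prime) {N' : ℕ} (hN : ¬ ℓ ∣ N') {ζ : M}
    (hζ : IsPrimitiveRoot ζ N') [IsGalois K M] (htop : IntermediateField.adjoin K {ζ} = ⊤)
    (σ : M ≃ₐ[K] M) (hσ : σ ζ = ζ ^ (ℓ ^ (Module.finrank ℚ K).factorial))
    (x n d : M) (hn : IsIntegral ℤ n) (hd : IsIntegral ℤ d) (hd1 : w d = 1) (hx : x * d = n) :
    w (σ x - x ^ (ℓ ^ (Module.finrank ℚ K).factorial)) ≤
      w (ℓ : M) ^ (1 / (Module.finrank ℚ K : ℝ)) := by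
  have h5n := step5 h hℓ hN hζ htop σ hσ n hn
  have h5d := step5 h hℓ hN hζ htop σ hσ d hd
  set q := ℓ ^ (Module.finrank ℚ K).factorial with hq
  have hd0 : d ≠ 0 := by
    rintro rfl
    rw [map_zero] at hd1
    exact zero_ne_one hd1
  have hdq : w (d ^ q) = 1 := by rw [map_pow, hd1, one_pow]
  have hσd : w (σ d) = 1 := h.eq_one_of_sub_lt hdq (lt_of_le_of_lt h5d (c_lt h))
  have hσd0 : σ d ≠ 0 := (map_ne_zero σ).2 hd0
  have e1 : σ x = σ n / σ d := by
    rw [eq_div_iff hσd0, ← map_mul, hx]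
  have e2 : x ^ q = n ^ q / d ^ q := by
    rw [eq_div_iff (pow_ne_zero _ hd0), ← mul_pow, hx]
  have e3 : σ x - x ^ q = ((σ n - n ^ q) * d ^ q - n ^ q * (σ d - d ^ q)) / (σ d * d ^ q) := by
    rw [e1, e2]
    have := pow_ne_zero q hd0
    field_simp
    ring
  rw [e3, map_div₀, map_mul, hσd, hdq, mul_one, div_one]
  refine (h.sub_le _ _).trans (max_le ?_ ?_)
  · rw [map_mul, hdq, mul_one]
    exact h5n
  · rw [map_mul]
    exact (mul_le_of_le_one_left (apply_nonneg _ _) (h.int _ (hn.pow q))).trans h5d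

/-- Step 7: all elements. -/
theorem step7 (v : FinitePlace M) (hv : v.1 (ℓ : M) < 1) (hℓ : ℓ.Prime) {N' : ℕ} (hN : ¬ ℓ ∣ N')
    {ζ : M} (hζ : IsPrimitiveRoot ζ N') [IsGalois K M]
    (htop : IntermediateField.adjoin K {ζ} = ⊤)
    (σ : M ≃ₐ[K] M) (hσ : σ ζ = ζ ^ (ℓ ^ (Module.finrank ℚ K).factorial)) (x : M) :
    v.1 (σ x - x ^ (ℓ ^ (Module.finrank ℚ K).factorial)) ≤
      v.1 (ℓ : M) ^ (1 / (Module.finrank ℚ K : ℝ)) *
        (max (v.1 (σ x)) 1 * max (v.1 (x ^ (ℓ ^ (Module.finrank ℚ K).factorial))) 1) := by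
  have h : Good M v.1 ℓ := good_of_finitePlace v hv
  have hc : 0 ≤ v.1 (ℓ : M) ^ (1 / (Module.finrank ℚ K : ℝ)) := c_nonneg
  obtain ⟨n, d, hnd⟩ := IsDedekindDomain.HeightOneSpectrum.exists_primeCompl_mul_eq_or_mul_eq
    (K := M) v.maximalIdeal x
  have hd1 : v.1 (algebraMap (𝓞 M) M d) = 1 := by
    have h1 := (FinitePlace.norm_eq_one_iff_notMem (K := M) v.maximalIdeal (d : 𝓞 M)).2 d.2
    rw [FinitePlace.norm_embedding_eq] at h1
    exact h1
  rcases hnd with hnd | hnd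
  · have h1 := step6 h hℓ hN hζ htop σ hσ x _ _ n.2 (d : 𝓞 M).2 hd1 hnd
    refine h1.trans (le_mul_of_one_le_right hc ?_)
    exact one_le_mul_of_one_le_of_one_le (le_max_right _ _) (le_max_right _ _)
  · have hx0 : x ≠ 0 := by
      rintro rfl
      rw [zero_mul] at hnd
      rw [← hnd, map_zero] at hd1
      exact zero_ne_one hd1
    have h1 := step6 h hℓ hN hζ htop σ hσ x⁻¹ _ _ n.2 (d : 𝓞 M).2 hd1 (by
      change x⁻¹ * algebraMap (𝓞 M) M d = algebraMap (𝓞 M) M n
      rw [← hnd, inv_mul_cancel_left₀ hx0])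
    set q := ℓ ^ (Module.finrank ℚ K).factorial with hq
    have e : σ x - x ^ q = -((σ x⁻¹ - x⁻¹ ^ q) * (σ x * x ^ q)) := by
      have h2 : σ x ≠ 0 := (map_ne_zero σ).2 hx0
      have h3 : x ^ q ≠ 0 := pow_ne_zero _ hx0
      rw [map_inv₀, inv_pow]
      field_simp
      ring
    rw [e, v.1.map_neg, map_mul, map_mul]
    refine mul_le_mul h1 ?_ (by positivity) hc
    exact mul_le_mul (le_max_left _ _) (le_max_left _ _) (apply_nonneg _ _)
      (le_trans (apply_nonneg _ _) (le_max_left _ _))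

end Step

/-- FR1. -/
theorem pf_FR1 : T_FR1 := by
  intro K _ _ ℓ hℓ M _ _ _ N' hN ζ hζ htop
  by_cases hex : ∃ v : FinitePlace M, v.1 (ℓ : M) < 1
  · obtain ⟨v, hv⟩ := hex
    have hN0 : N' ≠ 0 := fun h0 => hN (h0 ▸ dvd_zero ℓ)
    have : NeZero N' := ⟨hN0⟩
    have hcyc : IsCyclotomicExtension {N'} K M := by
      rw [IsCyclotomicExtension.iff_singleton]
      refine ⟨⟨ζ, hζ⟩, fun x => ?_⟩
      have h1 : x ∈ IntermediateField.adjoin K {ζ} := by rw [htop]; exact IntermediateField.mem_top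
      have h2 : IsIntegral K ζ := (hζ.isIntegral (Nat.pos_of_ne_zero hN0)).tower_top
      rw [← IntermediateField.mem_toSubalgebra,
        IntermediateField.adjoin_simple_toSubalgebra_of_isAlgebraic h2.isAlgebraic] at h1
      have hsub : ({ζ} : Set M) ⊆ {b : M | b ^ N' = 1} := by
        intro b hb
        rw [Set.mem_singleton_iff] at hb
        rw [Set.mem_ofPred_eq, hb]
        exact hζ.pow_eq_one
      exact (Algebra.adjoin_mono hsub : Algebra.adjoin K {ζ} ≤ _) h1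
    have hgal : IsGalois K M := IsCyclotomicExtension.isGalois {N'} K M
    obtain ⟨σ, hσ⟩ := step1 (K := K) (good_of_finitePlace v hv) hℓ hN hζ
    exact ⟨σ, fun v' hv' x => step7 v' hv' hℓ hN hζ htop σ hσ x⟩
  · exact ⟨1, fun v hv => absurd ⟨v, hv⟩ hex⟩

end Pool.Agent.H77.RD
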