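import Pool.Agent.H82.RD.Targets
import Pool.Agent.H82.RD.Basic

/-!
# Admissible triples of any height (MP_7ecdd4_nt): module DXL, the class `Xp` is closed under
linear operations and congruence
-/

set_option autoImplicit false

open Finset

namespace Pool.Agent.H77.RD

open Pool.Agent.H82.RD

theorem pf_DXL : T_DXL := by
  intro R _ ϖ E Jm K v y z
  refine ⟨?_, ?_, ?_, ?_⟩
  · rintro d i φ ψ ⟨C, hC, h⟩ ⟨C', hC', h'⟩
    refine ⟨fun c J => C c J + C' c J, fun c J => dvd_add (hC c J) (hC' c J), fun k => ?_⟩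
    have h1 := dvd_add (h k) (h' k)
    have h2 : φ k - ∑ c ∈ Sx v d, ∑ J ∈ Finset.range Jm,
          C c J * ((∏ j, y k j ^ c j) * ((z k).choose J : R)) +
        (ψ k - ∑ c ∈ Sx v d, ∑ J ∈ Finset.range Jm,
          C' c J * ((∏ j, y k j ^ c j) * ((z k).choose J : R))) =
        φ k + ψ k - ∑ c ∈ Sx v d, ∑ J ∈ Finset.range Jm,
          (C c J + C' c J) * ((∏ j, y k j ^ c j) * ((z k).choose J : R)) := by
      simp only [add_mul, Finset.sum_add_distrib]
      ring
    rwa [h2] at h1
  · rintro d i φ a ⟨C, hC, h⟩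
    refine ⟨fun c J => a * C c J, fun c J => Dvd.dvd.mul_left (hC c J) a, fun k => ?_⟩
    have h1 := Dvd.dvd.mul_left (h k) a
    have h2 : a * (φ k - ∑ c ∈ Sx v d, ∑ J ∈ Finset.range Jm,
          C c J * ((∏ j, y k j ^ c j) * ((z k).choose J : R))) =
        a * φ k - ∑ c ∈ Sx v d, ∑ J ∈ Finset.range Jm,
          (a * C c J) * ((∏ j, y k j ^ c j) * ((z k).choose J : R)) := by
      rw [mul_sub, Finset.mul_sum]
      congr 1
      refine Finset.sum_congr rfl fun c _ => ?_
      rw [Finset.mul_sum]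
      refine Finset.sum_congr rfl fun J _ => ?_
      ring
    rwa [h2] at h1
  · rintro d i d' i' φ hd hi ⟨C, hC, h⟩
    classical
    refine ⟨fun c J => if c ∈ Sx v d then C c J else 0, fun c J => ?_, fun k => ?_⟩
    · by_cases hc : c ∈ Sx v d
      · simp only [if_pos hc]
        exact (pow_dvd_pow ϖ (by omega)).trans (hC c J)
      · simp only [if_neg hc]
        exact dvd_zero _
    · have hsub : Sx v d ⊆ Sx v d' := by
        intro c hc
        rw [mem_Sx] at hc ⊢
        exact hc.trans hd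
      have h2 : ∑ c ∈ Sx v d', ∑ J ∈ Finset.range Jm,
            (if c ∈ Sx v d then C c J else 0) * ((∏ j, y k j ^ c j) * ((z k).choose J : R)) =
          ∑ c ∈ Sx v d, ∑ J ∈ Finset.range Jm,
            C c J * ((∏ j, y k j ^ c j) * ((z k).choose J : R)) := by
        rw [← Finset.sum_subset hsub]
        · refine Finset.sum_congr rfl fun c hc => ?_
          refine Finset.sum_congr rfl fun J _ => ?_
          rw [if_pos hc]
        · intro c _ hc
          refine Finset.sum_eq_zero fun J _ => ?_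
          rw [if_neg hc, zero_mul]
      rw [h2]
      exact h k
  · rintro d i φ ψ hφψ ⟨C, hC, h⟩
    refine ⟨C, hC, fun k => ?_⟩
    have h1 := dvd_sub (h k) (hφψ k)
    have h2 : φ k - ∑ c ∈ Sx v d, ∑ J ∈ Finset.range Jm,
          C c J * ((∏ j, y k j ^ c j) * ((z k).choose J : R)) - (φ k - ψ k) =
        ψ k - ∑ c ∈ Sx v d, ∑ J ∈ Finset.range Jm,
          C c J * ((∏ j, y k j ^ c j) * ((z k).choose J : R)) := by ring
    rwa [h2] at h1

end Pool.Agent.H77.RD
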